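import Mathlib

set_option autoImplicit false

/-!
Closure properties of the algebraic power series: sections along residue classes, substitution
`x ↦ x ^ M`, derivative.
-/

namespace Pool.Agent.Q19.Fermat

open PowerSeries

/-- keep only the coefficients whose index satisfies `P` -/
noncomputable def mask {K : Type*} [CommRing K] (P : ℕ → Prop) [DecidablePred P] (f : K⟦X⟧) : K⟦X⟧ :=
  PowerSeries.mk fun n => if P n then coeff n f else 0

theorem coeff_mask {K : Type*} [CommRing K] (P : ℕ → Prop) [DecidablePred P] (f : K⟦X⟧) (n : ℕ) :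
    coeff n (mask P f) = if P n then coeff n f else 0 := coeff_mk _ _

theorem mask_add {K : Type*} [CommRing K] (P : ℕ → Prop) [DecidablePred P] (f g : K⟦X⟧) :
    mask P (f + g) = mask P f + mask P g := by
  ext n; simp only [coeff_mask, map_add]; split_ifs <;> simp

theorem mask_map {K L : Type*} [CommRing K] [CommRing L] (φ : K →+* L) (P : ℕ → Prop)
    [DecidablePred P] (f : K⟦X⟧) : (mask P f).map φ = mask P (f.map φ) := by
  ext n; simp only [coeff_mask, coeff_map]; split_ifs <;> simp

section algcl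

variable (K : Type) [Field K] [Algebra ℚ K]

theorem alg_map_iff {f : ℚ⟦X⟧} :
    IsAlgebraic (Polynomial ℚ) (f.map (algebraMap ℚ K)) ↔ IsAlgebraic (Polynomial ℚ) f := by
  refine isAlgebraic_ringHom_iff_of_comp_eq (RingEquiv.refl (Polynomial ℚ))
    (PowerSeries.map (algebraMap ℚ K)) (PowerSeries.map_injective _ (algebraMap ℚ K).injective) ?_
  ext p n <;> simp [algebraMap_apply']

variable {K}

omit [Algebra ℚ K] in
theorem alg_rescale {g : K⟦X⟧} (hg : IsAlgebraic (Polynomial K) g) {a : K} (ha : a ≠ 0) :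
    IsAlgebraic (Polynomial K) (rescale a g) := by
  refine hg.ringHom_of_comp_eq (Polynomial.compRingHom (Polynomial.C a * Polynomial.X))
    (rescale a) ?_ ?_
  · intro p q hpq
    ext n
    have h : (p.comp (Polynomial.C a * Polynomial.X)).coeff n =
        (q.comp (Polynomial.C a * Polynomial.X)).coeff n := by
      change p.comp _ = q.comp _ at hpq
      rw [hpq]
    rw [Polynomial.comp_C_mul_X_coeff, Polynomial.comp_C_mul_X_coeff] at h
    exact mul_right_cancel₀ (pow_ne_zero n ha) h
  · refine RingHom.ext fun p => ?_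
    ext n
    change coeff n (algebraMap (Polynomial K) K⟦X⟧ (p.comp (Polynomial.C a * Polynomial.X))) =
      coeff n (rescale a (algebraMap (Polynomial K) K⟦X⟧ p))
    rw [algebraMap_apply', algebraMap_apply', coeff_rescale, coeff_map, coeff_map,
      Polynomial.coeff_coe, Polynomial.coeff_coe, Polynomial.comp_C_mul_X_coeff]
    change p.coeff n * a ^ n = a ^ n * p.coeff n
    rw [mul_comm]

theorem alg_up {g : K⟦X⟧} (hg : IsAlgebraic (Polynomial ℚ) g) : IsAlgebraic (Polynomial K) g := by
  refine hg.ringHom_of_comp_eq (Polynomial.mapRingHom (algebraMap ℚ K)) (RingHom.id _)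
    (Polynomial.map_injective _ (algebraMap ℚ K).injective) ?_
  ext p n <;> simp [algebraMap_apply']

attribute [local instance] Polynomial.algebra in
theorem alg_down [Algebra.IsAlgebraic ℚ K] {g : K⟦X⟧} (hg : IsAlgebraic (Polynomial K) g) :
    IsAlgebraic (Polynomial ℚ) g := by
  have : IsScalarTower (Polynomial ℚ) (Polynomial K) K⟦X⟧ := by
    refine IsScalarTower.of_algebraMap_eq fun p => ?_
    ext n
    simp [algebraMap_apply']
  exact hg.restrictScalars (Polynomial ℚ)

variable (K) in
theorem alg_mask_aux [Algebra.IsAlgebraic ℚ K] [CharZero K] [IsAlgClosed K]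
    {f : ℚ⟦X⟧} (hf : IsAlgebraic (Polynomial ℚ) f) {N : ℕ} (hN : 0 < N) (r : ℕ) :
    IsAlgebraic (Polynomial ℚ) (mask (fun n => n % N = r % N) f) := by
  have : NeZero (N : K) := ⟨by exact_mod_cast hN.ne'⟩
  have : NeZero N := ⟨hN.ne'⟩
  obtain ⟨z, hz⟩ := HasEnoughRootsOfUnity.exists_primitiveRoot K N
  have hz0 : z ≠ 0 := hz.ne_zero hN.ne'
  rw [← alg_map_iff K]
  apply alg_down
  set g : K⟦X⟧ := f.map (algebraMap ℚ K) with hg
  have hgalg : IsAlgebraic (Polynomial K) g := alg_up ((alg_map_iff K).2 hf)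
  have key : (mask (fun n => n % N = r % N) f).map (algebraMap ℚ K) =
      C ((N : K)⁻¹) * ∑ j ∈ Finset.range N, C ((z ^ (j * r))⁻¹) * rescale (z ^ j) g := by
    ext n
    rw [mask_map, coeff_mask, coeff_C_mul, map_sum]
    simp only [coeff_C_mul, coeff_rescale]
    have h1 : ∀ j ∈ Finset.range N, (z ^ (j * r))⁻¹ * ((z ^ j) ^ n * coeff n g) =
        (z ^ n * (z ^ r)⁻¹) ^ j * coeff n g := by
      intro j _
      rw [mul_pow, inv_pow, ← pow_mul, ← pow_mul, ← pow_mul, mul_comm n j, mul_comm r j]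
      ring
    rw [Finset.sum_congr rfl h1, ← Finset.sum_mul]
    by_cases h : n % N = r % N
    · rw [if_pos h]
      have h2 : z ^ n * (z ^ r)⁻¹ = 1 := by
        rw [← div_eq_mul_inv, div_eq_one_iff_eq (pow_ne_zero _ hz0)]
        rw [← pow_mod_orderOf z n, ← pow_mod_orderOf z r, ← hz.eq_orderOf, h]
      rw [h2]
      simp only [one_pow, Finset.sum_const, Finset.card_range, nsmul_eq_mul, mul_one]
      rw [← mul_assoc, inv_mul_cancel₀ (NeZero.ne (N : K)), one_mul]
    · rw [if_neg h]
      have h2 : z ^ n * (z ^ r)⁻¹ ≠ 1 := by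
        intro h3
        rw [← div_eq_mul_inv, div_eq_one_iff_eq (pow_ne_zero _ hz0)] at h3
        apply h
        rw [(hz.isOfFinOrder hN.ne').pow_eq_pow_iff_modEq, ← hz.eq_orderOf] at h3
        exact h3
      have h3 : (z ^ n * (z ^ r)⁻¹) ^ N = 1 := by
        rw [mul_pow, inv_pow, ← pow_mul, ← pow_mul, mul_comm n, mul_comm r, pow_mul, pow_mul,
          hz.pow_eq_one, one_pow, one_pow, inv_one, one_mul]
      have h4 : ∑ j ∈ Finset.range N, (z ^ n * (z ^ r)⁻¹) ^ j = 0 := by
        have := mul_geom_sum (z ^ n * (z ^ r)⁻¹) N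
        rw [h3, sub_self] at this
        exact (mul_eq_zero.1 this).resolve_left (sub_ne_zero.2 h2)
      rw [h4, zero_mul, mul_zero]
  rw [key]
  have hC : ∀ c : K, IsAlgebraic (Polynomial K) (C c : K⟦X⟧) := by
    intro c
    have : (C c : K⟦X⟧) = algebraMap (Polynomial K) K⟦X⟧ (Polynomial.C c) := by
      ext n; simp [algebraMap_apply']
    rw [this]
    exact isAlgebraic_algebraMap _
  refine (hC _).mul ?_
  refine Finset.sum_induction _ (fun g => IsAlgebraic (Polynomial K) g) (fun _ _ h1 h2 => h1.add h2)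
    isAlgebraic_zero (fun j _ => (hC _).mul (alg_rescale hgalg (pow_ne_zero _ hz0)))

end algcl

theorem alg_mask_class {f : ℚ⟦X⟧} (hf : IsAlgebraic (Polynomial ℚ) f) {N : ℕ} (hN : 0 < N) (r : ℕ) :
    IsAlgebraic (Polynomial ℚ) (mask (fun n => n % N = r % N) f) := by
  letI : Algebra ℚ (AlgebraicClosure ℚ) := AlgebraicClosure.instAlgebra ℚ
  have : Algebra.IsAlgebraic ℚ (AlgebraicClosure ℚ) := AlgebraicClosure.isAlgebraic ℚ
  exact alg_mask_aux (AlgebraicClosure ℚ) hf hN r

/-- `ℚ[x]` is integral over `ℚ[x ^ M]` -/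
theorem integral_over_expand {M : ℕ} (hM : 0 < M) (p : Polynomial ℚ) :
    IsIntegral (Polynomial.expand ℚ M).range p := by
  have hX : IsIntegral (Polynomial.expand ℚ M).range (Polynomial.X : Polynomial ℚ) := by
    apply IsIntegral.of_pow hM
    have : (Polynomial.X ^ M : Polynomial ℚ) = algebraMap (Polynomial.expand ℚ M).range
        (Polynomial ℚ) ⟨Polynomial.X ^ M, ⟨Polynomial.X, by simp⟩⟩ := rfl
    rw [this]
    exact isIntegral_algebraMap
  have hC : ∀ a : ℚ, IsIntegral (Polynomial.expand ℚ M).range (Polynomial.C a : Polynomial ℚ) := by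
    intro a
    have : (Polynomial.C a : Polynomial ℚ) = algebraMap (Polynomial.expand ℚ M).range
        (Polynomial ℚ) ⟨Polynomial.C a, ⟨Polynomial.C a, by simp⟩⟩ := rfl
    rw [this]
    exact isIntegral_algebraMap
  induction p using Polynomial.induction_on' with
  | add p q hp hq => exact hp.add hq
  | monomial n a =>
    rw [← Polynomial.C_mul_X_pow_eq_monomial]
    exact (hC a).mul (hX.pow n)

theorem expand_injective {K : Type} [CommRing K] {M : ℕ} (hM : M ≠ 0) :
    Function.Injective (PowerSeries.expand M hM : K⟦X⟧ →ₐ[K] K⟦X⟧) := by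
  intro f g h
  ext n
  rw [← coeff_expand_mul M hM f n, ← coeff_expand_mul M hM g n, h]

theorem alg_of_expand {f : ℚ⟦X⟧} {M : ℕ} (hM : M ≠ 0)
    (hf : IsAlgebraic (Polynomial ℚ) (PowerSeries.expand M hM f)) : IsAlgebraic (Polynomial ℚ) f := by
  have : Algebra.IsIntegral (Polynomial.expand ℚ M).range (Polynomial ℚ) :=
    ⟨integral_over_expand (Nat.pos_of_ne_zero hM)⟩
  have h1 : IsAlgebraic (Polynomial.expand ℚ M).range (PowerSeries.expand M hM f) :=
    hf.restrictScalars _
  refine h1.of_ringHom_of_comp_eq (Polynomial.expand ℚ M).rangeRestrict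
    (PowerSeries.expand M hM : ℚ⟦X⟧ →ₐ[ℚ] ℚ⟦X⟧) (AlgHom.rangeRestrict_surjective _)
    (expand_injective hM) ?_
  refine RingHom.ext fun p => ?_
  change algebraMap (Polynomial ℚ) ℚ⟦X⟧ (Polynomial.expand ℚ M p) =
    PowerSeries.expand M hM (algebraMap (Polynomial ℚ) ℚ⟦X⟧ p)
  ext n
  rw [algebraMap_apply', algebraMap_apply', coeff_expand]
  simp only [coeff_map, Polynomial.coeff_coe, Polynomial.coeff_expand (Nat.pos_of_ne_zero hM)]
  split_ifs <;> simp

theorem alg_expand {f : ℚ⟦X⟧} {M : ℕ} (hM : M ≠ 0) (hf : IsAlgebraic (Polynomial ℚ) f) :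
    IsAlgebraic (Polynomial ℚ) (PowerSeries.expand M hM f) := by
  refine hf.ringHom_of_comp_eq (Polynomial.expand ℚ M)
    (PowerSeries.expand M hM : ℚ⟦X⟧ →ₐ[ℚ] ℚ⟦X⟧)
    (Polynomial.expand_injective (Nat.pos_of_ne_zero hM)) ?_
  refine RingHom.ext fun p => ?_
  change algebraMap (Polynomial ℚ) ℚ⟦X⟧ (Polynomial.expand ℚ M p) =
    PowerSeries.expand M hM (algebraMap (Polynomial ℚ) ℚ⟦X⟧ p)
  ext n
  rw [algebraMap_apply', algebraMap_apply', coeff_expand]
  simp only [coeff_map, Polynomial.coeff_coe, Polynomial.coeff_expand (Nat.pos_of_ne_zero hM)]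
  split_ifs <;> simp

/-- derivative of an algebraic power series -/
theorem alg_deriv {f : ℚ⟦X⟧} (hf : IsAlgebraic (Polynomial ℚ) f) :
    IsAlgebraic (Polynomial ℚ) (d⁄dX ℚ f) := by
  classical
  have hinj : Function.Injective (algebraMap (Polynomial ℚ) ℚ⟦X⟧) := by
    intro p q h
    ext n
    have := congrArg (coeff n) h
    simpa [algebraMap_apply'] using this
  -- a polynomial of minimal degree
  have hex : ∃ n : ℕ, ∃ P : Polynomial (Polynomial ℚ), P ≠ 0 ∧ Polynomial.aeval f P = 0 ∧
      P.natDegree = n := by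
    obtain ⟨P, hP, h⟩ := hf
    exact ⟨_, P, hP, h, rfl⟩
  obtain ⟨P, hP0, hP, hdeg⟩ := Nat.find_spec hex
  have hmin : ∀ Q : Polynomial (Polynomial ℚ), Q ≠ 0 → Polynomial.aeval f Q = 0 →
      P.natDegree ≤ Q.natDegree := by
    intro Q hQ0 hQ
    rw [hdeg]
    exact Nat.find_min' hex ⟨Q, hQ0, hQ, rfl⟩
  have hpos : P.natDegree ≠ 0 := by
    intro h0
    rw [Polynomial.eq_C_of_natDegree_eq_zero h0] at hP hP0
    rw [Polynomial.aeval_C] at hP
    apply hP0
    have : P.coeff 0 = 0 := hinj (by rw [hP, map_zero])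
    rw [this, map_zero]
  have hP' : Polynomial.aeval f P.derivative ≠ 0 := by
    intro h
    have h1 : P.derivative ≠ 0 := by
      intro h2
      exact hpos (Polynomial.derivative_eq_zero.1 h2)
    have h2 := hmin _ h1 h
    have h3 := Polynomial.natDegree_derivative_lt hpos
    omega
  -- the derivative with respect to the coefficients
  have hD : ∀ Q : Polynomial (Polynomial ℚ), ∃ R : Polynomial (Polynomial ℚ),
      d⁄dX ℚ (Polynomial.aeval f Q) = Polynomial.aeval f R +
        Polynomial.aeval f Q.derivative * d⁄dX ℚ f := by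
    intro Q
    induction Q using Polynomial.induction_on' with
    | add Q1 Q2 h1 h2 =>
      obtain ⟨R1, h1⟩ := h1
      obtain ⟨R2, h2⟩ := h2
      refine ⟨R1 + R2, ?_⟩
      simp only [map_add, h1, h2]
      ring
    | monomial n a =>
      refine ⟨Polynomial.monomial n (Polynomial.derivative a), ?_⟩
      rw [Polynomial.aeval_monomial, Polynomial.aeval_monomial, Polynomial.derivative_monomial,
        Polynomial.aeval_monomial, Derivation.leibniz, Derivation.leibniz_pow]
      have h3 : d⁄dX ℚ (algebraMap (Polynomial ℚ) ℚ⟦X⟧ a) =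
          algebraMap (Polynomial ℚ) ℚ⟦X⟧ (Polynomial.derivative a) := by
        ext k
        simp [algebraMap_apply', coeff_derivative, Polynomial.coeff_derivative]
      rw [h3]
      simp only [smul_eq_mul, nsmul_eq_mul, map_mul, map_natCast]
      ring
  obtain ⟨R, hR⟩ := hD P
  rw [hP, map_zero] at hR
  have halg : ∀ Q : Polynomial (Polynomial ℚ), IsAlgebraic (Polynomial ℚ) (Polynomial.aeval f Q) := by
    intro Q
    induction Q using Polynomial.induction_on' with
    | add Q1 Q2 h1 h2 => rw [map_add]; exact h1.add h2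
    | monomial n a =>
      rw [Polynomial.aeval_monomial]
      exact (isAlgebraic_algebraMap a).mul (hf.pow n)
  refine IsAlgebraic.of_mul (mem_nonZeroDivisors_of_ne_zero hP') (halg _) ?_
  have : Polynomial.aeval f P.derivative * d⁄dX ℚ f = - Polynomial.aeval f R := by
    linear_combination -hR
  rw [this]
  exact (halg R).neg

end Pool.Agent.Q19.Fermat
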