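import Mathlib.RingTheory.PowerSeries.Derivative
import Mathlib.RingTheory.PowerSeries.Expand
import Mathlib.RingTheory.Algebraic.Integral

set_option autoImplicit false

/-!
The group of algebraic power series with integer coefficients and the Fermat property, and its
subgroups.
-/

namespace Pool.Agent.Q19.Fermat

open PowerSeries

/-- The power series `R` with integer coefficients is algebraic over `ℚ(x)`: it is a root of a
nonzero polynomial with coefficients in `ℚ[x]`. -/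
def IsAlg (R : ℤ⟦X⟧) : Prop := IsAlgebraic (Polynomial ℚ) (R.map (Int.castRingHom ℚ))

/-- The power series `R` is the expansion at `0` of a rational function: `q R = p` with
polynomials `p` and `q ≠ 0`. -/
def IsRat (R : ℤ⟦X⟧) : Prop :=
  ∃ p q : Polynomial ℚ, q ≠ 0 ∧ (q : ℚ⟦X⟧) * R.map (Int.castRingHom ℚ) = (p : ℚ⟦X⟧)

/-- The Fermat property: `p` divides the coefficient of `x ^ p` for all sufficiently large primes
`p`. -/
def HasFermat (R : ℤ⟦X⟧) : Prop := ∃ N : ℕ, ∀ p : ℕ, p.Prime → N ≤ p → (p : ℤ) ∣ coeff p R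

theorem isAlg_zero : IsAlg 0 := by
  unfold IsAlg; rw [map_zero]; exact isAlgebraic_zero

theorem IsAlg.add {R S : ℤ⟦X⟧} (hR : IsAlg R) (hS : IsAlg S) : IsAlg (R + S) := by
  unfold IsAlg at *; rw [map_add]; exact IsAlgebraic.add hR hS

theorem IsAlg.neg {R : ℤ⟦X⟧} (hR : IsAlg R) : IsAlg (-R) := by
  unfold IsAlg at *; rw [map_neg]; exact IsAlgebraic.neg hR

theorem hasFermat_zero : HasFermat 0 := ⟨0, fun p _ _ => by simp⟩

theorem HasFermat.add {R S : ℤ⟦X⟧} (hR : HasFermat R) (hS : HasFermat S) : HasFermat (R + S) := by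
  obtain ⟨N, hN⟩ := hR
  obtain ⟨N', hN'⟩ := hS
  refine ⟨max N N', fun p hp h => ?_⟩
  rw [map_add]
  exact dvd_add (hN p hp (le_trans (le_max_left _ _) h)) (hN' p hp (le_trans (le_max_right _ _) h))

theorem HasFermat.neg {R : ℤ⟦X⟧} (hR : HasFermat R) : HasFermat (-R) := by
  obtain ⟨N, hN⟩ := hR
  refine ⟨N, fun p hp h => ?_⟩
  rw [map_neg]
  exact (dvd_neg).2 (hN p hp h)

/-- The group `𝓕` of all algebraic power series with integer coefficients and the Fermat
property. -/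
def groupF : AddSubgroup ℤ⟦X⟧ where
  carrier := {R | IsAlg R ∧ HasFermat R}
  zero_mem' := ⟨isAlg_zero, hasFermat_zero⟩
  add_mem' := fun hR hS => ⟨hR.1.add hS.1, hR.2.add hS.2⟩
  neg_mem' := fun hR => ⟨hR.1.neg, hR.2.neg⟩

/-- The group `D` of all `x U'(x)` with an algebraic power series `U` with integer coefficients. -/
def groupD : AddSubgroup ℤ⟦X⟧ where
  carrier := {R | ∃ U : ℤ⟦X⟧, IsAlg U ∧ R = X * d⁄dX ℤ U}
  zero_mem' := ⟨0, isAlg_zero, by simp⟩
  add_mem' := by
    rintro _ _ ⟨U, hU, rfl⟩ ⟨V, hV, rfl⟩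
    exact ⟨U + V, hU.add hV, by rw [map_add, mul_add]⟩
  neg_mem' := by
    rintro _ ⟨U, hU, rfl⟩
    exact ⟨-U, hU.neg, by rw [map_neg, mul_neg]⟩

/-- The group `P` of all finite sums of power series `U(x ^ M)` with `M ≥ 2` and an algebraic power
series `U` with integer coefficients. -/
def groupP : AddSubgroup ℤ⟦X⟧ :=
  AddSubgroup.closure {R | ∃ (M : ℕ) (hM : M ≠ 0) (U : ℤ⟦X⟧), 2 ≤ M ∧ IsAlg U ∧
    R = PowerSeries.expand M hM U}

/-- The group `ℤ[x]` of all polynomials with integer coefficients. -/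
def groupZx : AddSubgroup ℤ⟦X⟧ where
  carrier := {R | ∃ p : Polynomial ℤ, R = (p : ℤ⟦X⟧)}
  zero_mem' := ⟨0, by simp⟩
  add_mem' := by
    rintro _ _ ⟨p, rfl⟩ ⟨q, rfl⟩
    exact ⟨p + q, by simp⟩
  neg_mem' := by
    rintro _ ⟨p, rfl⟩
    exact ⟨-p, by simp⟩

/-- The group of all power series with integer coefficients which represent rational functions. -/
def groupRat : AddSubgroup ℤ⟦X⟧ where
  carrier := {R | IsRat R}
  zero_mem' := ⟨0, 1, one_ne_zero, by simp⟩
  add_mem' := by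
    rintro R S ⟨p, q, hq, h⟩ ⟨p', q', hq', h'⟩
    refine ⟨p * q' + p' * q, q * q', mul_ne_zero hq hq', ?_⟩
    rw [Polynomial.coe_mul, map_add, Polynomial.coe_add, Polynomial.coe_mul, Polynomial.coe_mul,
      ← h, ← h']
    ring
  neg_mem' := by
    rintro R ⟨p, q, hq, h⟩
    refine ⟨-p, q, hq, ?_⟩
    rw [map_neg, mul_neg, h, Polynomial.coe_neg]

end Pool.Agent.Q19.Fermat
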