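import Mathlib

set_option autoImplicit false

/-!
A countable torsion-free divisible abelian group of infinite rank is isomorphic to `ℚ^(ℕ)`.
-/

namespace Pool.Agent.Q19.Fermat

theorem equiv_rat {M : Type} [AddCommGroup M] [Countable M]
    (htf : ∀ p : ℕ, p.Prime → ∀ m : M, p • m = 0 → m = 0)
    (hdiv : ∀ p : ℕ, p.Prime → ∀ m : M, ∃ m' : M, p • m' = m)
    (f : ℕ → M) (hf : LinearIndependent ℤ f) :
    Nonempty (M ≃+ (ℕ →₀ ℚ)) := by
  have htf' : ∀ n : ℕ, n ≠ 0 → ∀ m : M, n • m = 0 → m = 0 := by
    intro n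
    induction n using Nat.recOnMul with
    | zero => intro h; exact absurd rfl h
    | one => intro _ m hm; simpa using hm
    | prime p hp => intro _ m hm; exact htf p hp m hm
    | mul a b ha hb =>
      intro h m hm
      rw [mul_comm, mul_smul] at hm
      exact ha (left_ne_zero_of_mul h) m (hb (right_ne_zero_of_mul h) _ hm)
  have hdiv' : ∀ n : ℕ, n ≠ 0 → ∀ m : M, ∃ m' : M, n • m' = m := by
    intro n
    induction n using Nat.recOnMul with
    | zero => intro h; exact absurd rfl h
    | one => intro _ m; exact ⟨m, by simp⟩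
    | prime p hp => intro _ m; exact hdiv p hp m
    | mul a b ha hb =>
      intro h m
      obtain ⟨m1, h1⟩ := ha (left_ne_zero_of_mul h) m
      obtain ⟨m2, h2⟩ := hb (right_ne_zero_of_mul h) m1
      exact ⟨m2, by rw [mul_smul, h2, h1]⟩
  haveI : IsAddTorsionFree M := by
    refine ⟨fun n hn a b hab => ?_⟩
    have hab' : n • a = n • b := hab
    have h1 : n • (a - b) = 0 := by rw [smul_sub, hab', sub_self]
    exact sub_eq_zero.1 (htf' n hn _ h1)
  have hinj : Function.Injective (DivisibleHull.coeAddMonoidHom M) := DivisibleHull.coe_injective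
  have hsurj : Function.Surjective (DivisibleHull.coeAddMonoidHom M) := by
    intro x
    induction x using DivisibleHull.ind with
    | mk num den =>
      obtain ⟨m', hm'⟩ := hdiv' (den : ℕ) den.ne_zero num
      refine ⟨m', ?_⟩
      change DivisibleHull.mk m' 1 = DivisibleHull.mk num den
      rw [DivisibleHull.mk_eq_mk_iff_smul_eq_smul]
      simp [hm']
  let e : M ≃+ DivisibleHull M :=
    AddEquiv.ofBijective (DivisibleHull.coeAddMonoidHom M) ⟨hinj, hsurj⟩
  haveI : Countable (DivisibleHull M) := e.symm.toEquiv.injective.countable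
  have hli : LinearIndependent ℤ (fun n => e (f n)) := by
    have := hf.map' (e.toAddMonoidHom.toIntLinearMap) (by
      rw [LinearMap.ker_eq_bot]
      exact e.injective)
    exact this
  have hliQ : LinearIndependent ℚ (fun n => e (f n)) :=
    (LinearIndependent.iff_fractionRing ℤ ℚ).1 hli
  have h1 : Cardinal.aleph0 ≤ Module.rank ℚ (DivisibleHull M) := by
    have := hliQ.cardinal_le_rank
    simpa using this
  have h2 : Module.rank ℚ (DivisibleHull M) ≤ Cardinal.aleph0 :=
    (rank_le_card ℚ (DivisibleHull M)).trans (Cardinal.mk_le_aleph0)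
  have h3 : Module.rank ℚ (DivisibleHull M) = Module.rank ℚ (ℕ →₀ ℚ) := by
    rw [rank_finsupp_self, le_antisymm h2 h1]
    simp
  obtain ⟨l⟩ := nonempty_linearEquiv_of_rank_eq h3
  exact ⟨e.trans l.toAddEquiv⟩

end Pool.Agent.Q19.Fermat
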