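import Mathlib
import Pool.Agent.Q19.Fermat.Defs
import Pool.Agent.Q19.Fermat.Alg
import Pool.Agent.Q19.Fermat.Grp

set_option autoImplicit false

namespace Pool.Agent.Q19.Fermat

open PowerSeries

theorem IsAlg.mask_class {R : ℤ⟦X⟧} (hR : IsAlg R) {N : ℕ} (hN : 0 < N) (r : ℕ) :
    IsAlg (mask (fun n => n % N = r % N) R) := by
  unfold IsAlg at *
  rw [mask_map]
  exact alg_mask_class hR hN r

theorem IsAlg.of_smul {R : ℤ⟦X⟧} {k : ℤ} (hk : k ≠ 0) (hR : IsAlg (k • R)) : IsAlg R := by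
  unfold IsAlg at *
  have h1 : (k • R).map (Int.castRingHom ℚ) = C (k : ℚ) * R.map (Int.castRingHom ℚ) := by
    ext n; simp
  rw [h1] at hR
  refine IsAlgebraic.of_mul (y := C (k : ℚ)) ?_ ?_ hR
  · apply mem_nonZeroDivisors_of_ne_zero
    intro h
    have := congrArg (coeff 0) h
    simp at this
    exact hk this
  · have : (C (k : ℚ) : ℚ⟦X⟧) = algebraMap (Polynomial ℚ) ℚ⟦X⟧ (Polynomial.C (k : ℚ)) := by
      ext n; simp [algebraMap_apply']
    rw [this]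
    exact isAlgebraic_algebraMap _

theorem isAlg_poly (p : Polynomial ℤ) : IsAlg (p : ℤ⟦X⟧) := by
  unfold IsAlg
  have : (p : ℤ⟦X⟧).map (Int.castRingHom ℚ) = algebraMap (Polynomial ℚ) ℚ⟦X⟧
      (p.map (Int.castRingHom ℚ)) := by
    ext n; simp [algebraMap_apply']
  rw [this]
  exact isAlgebraic_algebraMap _

theorem IsRat.isAlg {R : ℤ⟦X⟧} (hR : IsRat R) : IsAlg R := by
  obtain ⟨p, q, hq, h⟩ := hR
  unfold IsAlg
  have hq' : (q : ℚ⟦X⟧) ∈ nonZeroDivisors ℚ⟦X⟧ := by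
    apply mem_nonZeroDivisors_of_ne_zero
    intro h0
    exact hq (by exact_mod_cast h0)
  have hc : ∀ p : Polynomial ℚ, IsAlgebraic (Polynomial ℚ) (p : ℚ⟦X⟧) := by
    intro p
    have : (p : ℚ⟦X⟧) = algebraMap (Polynomial ℚ) ℚ⟦X⟧ p := by
      ext n; simp [algebraMap_apply']
    rw [this]
    exact isAlgebraic_algebraMap _
  refine IsAlgebraic.of_mul hq' (hc q) ?_
  rw [h]
  exact hc p

theorem IsAlg.sum {ι : Type*} (s : Finset ι) (f : ι → ℤ⟦X⟧) (h : ∀ i ∈ s, IsAlg (f i)) :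
    IsAlg (∑ i ∈ s, f i) := by
  classical
  induction s using Finset.induction_on with
  | empty => rw [Finset.sum_empty]; exact isAlg_zero
  | insert a s ha ih =>
    rw [Finset.sum_insert ha]
    exact (h a (Finset.mem_insert_self _ _)).add
      (ih fun i hi => h i (Finset.mem_insert_of_mem hi))

theorem IsAlg.smul {R : ℤ⟦X⟧} (hR : IsAlg R) (k : ℤ) : IsAlg (k • R) := by
  unfold IsAlg at *
  have h1 : (k • R).map (Int.castRingHom ℚ) = k • R.map (Int.castRingHom ℚ) := by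
    ext n; simp
  rw [h1, zsmul_eq_mul]
  refine IsAlgebraic.mul ?_ hR
  have : ((k : ℤ) : ℚ⟦X⟧) = algebraMap (Polynomial ℚ) ℚ⟦X⟧ (k : Polynomial ℚ) := by simp
  rw [this]
  exact isAlgebraic_algebraMap _

theorem IsAlg.xderiv {R : ℤ⟦X⟧} (hR : IsAlg R) : IsAlg (X * d⁄dX ℤ R) := by
  unfold IsAlg at *
  have h1 : (X * d⁄dX ℤ R).map (Int.castRingHom ℚ) = X * d⁄dX ℚ (R.map (Int.castRingHom ℚ)) := by
    rw [map_mul, map_X]
    congr 1
    ext n; simp [coeff_derivative]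
  rw [h1]
  have hX : IsAlgebraic (Polynomial ℚ) (X : ℚ⟦X⟧) := by
    have : (X : ℚ⟦X⟧) = algebraMap (Polynomial ℚ) ℚ⟦X⟧ Polynomial.X := by
      rw [algebraMap_apply']; simp
    rw [this]
    exact isAlgebraic_algebraMap _
  exact hX.mul (alg_deriv hR)

theorem isAlg_of_expand {R : ℤ⟦X⟧} {M : ℕ} (hM : M ≠ 0) (h : IsAlg (PowerSeries.expand M hM R)) :
    IsAlg R := by
  unfold IsAlg at *
  rw [map_expand] at h
  exact alg_of_expand hM h

theorem IsAlg.expand {R : ℤ⟦X⟧} {M : ℕ} (hM : M ≠ 0) (h : IsAlg R) :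
    IsAlg (PowerSeries.expand M hM R) := by
  unfold IsAlg at *
  rw [map_expand]
  exact alg_expand hM h

theorem coeff_xderiv (R : ℤ⟦X⟧) (n : ℕ) : coeff n (X * d⁄dX ℤ R) = n * coeff n R := by
  cases n with
  | zero => simp
  | succ n =>
    rw [coeff_succ_X_mul, coeff_derivative]
    push_cast
    ring

/-! ### The class of subgroups for which the argument works -/

/-- closure properties -/
structure Good (A : AddSubgroup ℤ⟦X⟧) : Prop where
  mask : ∀ R ∈ A, IsAlg R → ∀ N r : ℕ, 0 < N → mask (fun n => n % N = r % N) R ∈ A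
  sat : ∀ (k : ℤ) (R : ℤ⟦X⟧), k ≠ 0 → k • R ∈ A → R ∈ A
  poly : ∀ p : Polynomial ℤ, (p : ℤ⟦X⟧) ∈ A
  geom : ∀ a : ℕ, PowerSeries.mk (fun n => (a : ℤ) ^ n) ∈ A
  xderiv : ∀ R ∈ A, X * d⁄dX ℤ R ∈ A

/-- the group of relations -/
def rel (A : AddSubgroup ℤ⟦X⟧) : AddSubgroup ℤ⟦X⟧ := (groupD ⊓ A) ⊔ groupZx ⊔ (groupP ⊓ A)

theorem groupD_le : groupD ≤ groupF := by
  rintro _ ⟨U, hU, rfl⟩
  refine ⟨hU.xderiv, 0, fun p _ _ => ?_⟩
  rw [coeff_xderiv]
  exact dvd_mul_right _ _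

theorem groupP_le : groupP ≤ groupF := by
  unfold groupP
  rw [AddSubgroup.closure_le]
  rintro _ ⟨M, hM, U, hM2, hU, rfl⟩
  refine ⟨hU.expand hM, M + 1, fun p hp h => ?_⟩
  rw [coeff_expand_of_not_dvd]
  · exact dvd_zero _
  · intro hd
    rcases (Nat.dvd_prime hp).1 hd with h1 | h1 <;> omega

theorem groupZx_le : groupZx ≤ groupF := by
  rintro _ ⟨p, rfl⟩
  refine ⟨isAlg_poly p, p.natDegree + 1, fun q _ h => ?_⟩
  rw [Polynomial.coeff_coe, Polynomial.coeff_eq_zero_of_natDegree_lt (by omega)]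
  exact dvd_zero _

theorem rel_le {A : AddSubgroup ℤ⟦X⟧} (hA : Good A) : rel A ≤ groupF ⊓ A := by
  refine sup_le (sup_le ?_ ?_) ?_
  · exact inf_le_inf_right _ groupD_le
  · refine le_inf groupZx_le ?_
    rintro _ ⟨p, rfl⟩
    exact hA.poly p
  · exact inf_le_inf_right _ groupP_le

/-! ### Sections -/

theorem sec_eq_expand (R : ℤ⟦X⟧) {M : ℕ} (hM : M ≠ 0) :
    mask (fun n => n % M = 0 % M) R = PowerSeries.expand M hM (PowerSeries.mk fun k => coeff (M * k) R) := by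
  ext n
  rw [coeff_mask, coeff_expand, Nat.zero_mod]
  by_cases h : M ∣ n
  · rw [if_pos (Nat.mod_eq_zero_of_dvd h), if_pos h, coeff_mk, Nat.mul_div_cancel' h]
  · rw [if_neg (fun h' => h (Nat.dvd_of_mod_eq_zero h')), if_neg h]

theorem sec_mem_P {R : ℤ⟦X⟧} (hR : IsAlg R) {M : ℕ} (hM : 2 ≤ M) :
    mask (fun n => n % M = 0 % M) R ∈ groupP := by
  have hM0 : M ≠ 0 := by omega
  apply AddSubgroup.subset_closure
  refine ⟨M, hM0, PowerSeries.mk fun k => coeff (M * k) R, hM, ?_, sec_eq_expand R hM0⟩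
  apply isAlg_of_expand hM0
  rw [← sec_eq_expand R hM0]
  exact hR.mask_class (by omega) 0

/-- remove the coefficients whose index is divisible by a member of `L` -/
noncomputable def rem (L : List ℕ) (R : ℤ⟦X⟧) : ℤ⟦X⟧ := mask (fun n => ∀ M ∈ L, ¬ M ∣ n) R

theorem rem_nil (R : ℤ⟦X⟧) : rem [] R = R := by
  ext n; simp [rem, coeff_mask]

theorem rem_cons (M : ℕ) (L : List ℕ) (R : ℤ⟦X⟧) :
    rem (M :: L) R = rem L R - mask (fun n => n % M = 0 % M) (rem L R) := by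
  ext n
  rw [map_sub, coeff_mask, rem, rem, coeff_mask, coeff_mask, Nat.zero_mod]
  by_cases h : M ∣ n
  · rw [if_neg (by simp [h]), if_pos (Nat.mod_eq_zero_of_dvd h), sub_self]
  · rw [if_neg (c := n % M = 0) (fun h' => h (Nat.dvd_of_mod_eq_zero h')), sub_zero]
    simp [h]

theorem rem_good {A : AddSubgroup ℤ⟦X⟧} (hA : Good A) (L : List ℕ) (hL : ∀ M ∈ L, 2 ≤ M)
    {R : ℤ⟦X⟧} (hR : IsAlg R) (hRA : R ∈ A) :
    IsAlg (rem L R) ∧ rem L R ∈ A ∧ R - rem L R ∈ groupP ⊓ A := by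
  induction L with
  | nil =>
    rw [rem_nil, sub_self]
    exact ⟨hR, hRA, AddSubgroup.zero_mem _⟩
  | cons M L ih =>
    obtain ⟨h1, h2, h3⟩ := ih fun N hN => hL N (List.mem_cons_of_mem _ hN)
    have hM : 2 ≤ M := hL M List.mem_cons_self
    have h4 : IsAlg (mask (fun n => n % M = 0 % M) (rem L R)) := h1.mask_class (by omega) 0
    have h5 : mask (fun n => n % M = 0 % M) (rem L R) ∈ A := hA.mask _ h2 h1 _ _ (by omega)
    rw [rem_cons]
    refine ⟨?_, A.sub_mem h2 h5, ?_⟩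
    · rw [sub_eq_add_neg]; exact h1.add h4.neg
    · have : R - (rem L R - mask (fun n => n % M = 0 % M) (rem L R)) =
          (R - rem L R) + mask (fun n => n % M = 0 % M) (rem L R) := by ring
      rw [this]
      exact AddSubgroup.add_mem _ h3 ⟨sec_mem_P h1 hM, h5⟩

theorem coeff_rem_of {L : List ℕ} {R : ℤ⟦X⟧} {n : ℕ} (h : ∀ M ∈ L, ¬ M ∣ n) :
    coeff n (rem L R) = coeff n R := by
  rw [rem, coeff_mask, if_pos h]

theorem coeff_rem_not {L : List ℕ} {R : ℤ⟦X⟧} {n : ℕ} (h : ¬ ∀ M ∈ L, ¬ M ∣ n) :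
    coeff n (rem L R) = 0 := by
  rw [rem, coeff_mask, if_neg h]

/-- elements of `P` have few nonzero coefficients -/
theorem groupP_coeff {v : ℤ⟦X⟧} (hv : v ∈ groupP) :
    ∃ L : List ℕ, (∀ M ∈ L, 2 ≤ M) ∧ ∀ n, (∀ M ∈ L, ¬ M ∣ n) → coeff n v = 0 := by
  unfold groupP at hv
  induction hv using AddSubgroup.closure_induction with
  | mem x hx =>
    obtain ⟨M, hM, U, hM2, _, rfl⟩ := hx
    refine ⟨[M], by simpa using hM2, fun n hn => ?_⟩
    exact coeff_expand_of_not_dvd _ _ _ (hn M (by simp))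
  | zero => exact ⟨[], by simp, by simp⟩
  | add x y _ _ hx hy =>
    obtain ⟨L, h1, h2⟩ := hx
    obtain ⟨L', h1', h2'⟩ := hy
    refine ⟨L ++ L', ?_, fun n hn => ?_⟩
    · intro M hM
      rcases List.mem_append.1 hM with h | h
      · exact h1 M h
      · exact h1' M h
    · rw [map_add, h2 n (fun M hM => hn M (List.mem_append_left _ hM)),
        h2' n (fun M hM => hn M (List.mem_append_right _ hM)), add_zero]
  | neg x _ hx =>
    obtain ⟨L, h1, h2⟩ := hx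
    exact ⟨L, h1, fun n hn => by rw [map_neg, h2 n hn, neg_zero]⟩

/-- the shape of the elements of `rel A` -/
theorem rel_coeff {A : AddSubgroup ℤ⟦X⟧} {R : ℤ⟦X⟧} (hR : R ∈ rel A) :
    ∃ (U : ℤ⟦X⟧) (L : List ℕ) (K : ℕ), IsAlg U ∧ (∀ M ∈ L, 2 ≤ M) ∧
      ∀ n, K ≤ n → (∀ M ∈ L, ¬ M ∣ n) → coeff n R = n * coeff n U := by
  obtain ⟨y, hy, v, hv, rfl⟩ := AddSubgroup.mem_sup.1 hR
  obtain ⟨d, hd, z, hz, rfl⟩ := AddSubgroup.mem_sup.1 hy
  obtain ⟨⟨U, hU, rfl⟩, _⟩ := hd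
  obtain ⟨p, rfl⟩ := hz
  obtain ⟨L, h1, h2⟩ := groupP_coeff hv.1
  refine ⟨U, L, p.natDegree + 1, hU, h1, fun n hn hL => ?_⟩
  rw [map_add, map_add, coeff_xderiv, h2 n hL, Polynomial.coeff_coe,
    Polynomial.coeff_eq_zero_of_natDegree_lt (by omega), add_zero, add_zero]

/-- a power series with finitely many nonzero coefficients is a polynomial -/
theorem poly_of_coeff {R : ℤ⟦X⟧} (K : ℕ) (h : ∀ n, K ≤ n → coeff n R = 0) : R ∈ groupZx := by
  refine ⟨R.trunc K, ?_⟩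
  ext n
  rw [Polynomial.coeff_coe, coeff_trunc]
  split_ifs with hn
  · rfl
  · exact h n (by omega)

theorem torsion_free {A : AddSubgroup ℤ⟦X⟧} (hA : Good A) {q : ℕ} (hq : q.Prime) {R : ℤ⟦X⟧}
    (hR : R ∈ groupF ⊓ A) (h : (q : ℤ) • R ∈ rel A) : R ∈ rel A := by
  obtain ⟨U, L, K, hU, hL, hc⟩ := rel_coeff h
  have hL' : ∀ M ∈ q :: L, 2 ≤ M := by
    intro M hM
    rcases List.mem_cons.1 hM with rfl | hM
    · exact hq.two_le
    · exact hL M hM
  obtain ⟨h1, h2, h3⟩ := rem_good hA (q :: L) hL' hR.1.1 hR.2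
  have hq0 : (q : ℤ) ≠ 0 := by exact_mod_cast hq.ne_zero
  -- the divided series
  have hkey : ∀ n, K ≤ n → (∀ M ∈ q :: L, ¬ M ∣ n) → (q : ℤ) ∣ coeff n U := by
    intro n hn hM
    have h5 := hc n hn fun M hM' => hM M (List.mem_cons_of_mem _ hM')
    have h6 : (q : ℤ) ∣ n * coeff n U := by
      rw [← h5, map_zsmul, smul_eq_mul]
      exact dvd_mul_right _ _
    have hqp : Prime (q : ℤ) := Nat.prime_iff_prime_int.1 hq
    rcases hqp.dvd_or_dvd h6 with h7 | h7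
    · exact absurd (by exact_mod_cast h7) (hM q List.mem_cons_self)
    · exact h7
  set W : ℤ⟦X⟧ := PowerSeries.mk fun n =>
    if K ≤ n ∧ ∀ M ∈ q :: L, ¬ M ∣ n then coeff n U / q else 0 with hW
  have hWalg : IsAlg W := by
    apply IsAlg.of_smul hq0
    have h7 : (q : ℤ) • W - rem (q :: L) U ∈ groupZx := by
      apply poly_of_coeff K
      intro n hn
      rw [map_sub, rem, coeff_mask, map_zsmul, hW, coeff_mk]
      by_cases h8 : ∀ M ∈ q :: L, ¬ M ∣ n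
      · rw [if_pos ⟨hn, h8⟩, if_pos h8, smul_eq_mul, Int.mul_ediv_cancel' (hkey n hn h8), sub_self]
      · rw [if_neg (fun h' => h8 h'.2), if_neg h8, smul_zero, sub_zero]
    obtain ⟨p, hp⟩ := h7
    have h8 : (q : ℤ) • W = (p : ℤ⟦X⟧) + rem (q :: L) U := by rw [← hp]; ring
    rw [h8]
    have hTop : Good (⊤ : AddSubgroup ℤ⟦X⟧) :=
      ⟨fun _ _ _ _ _ _ => trivial, fun _ _ _ _ => trivial, fun _ => trivial, fun _ => trivial,
        fun _ _ => trivial⟩
    exact (isAlg_poly p).add (rem_good hTop (q :: L) hL' hU trivial).1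
  have h9 : rem (q :: L) R - X * d⁄dX ℤ W ∈ groupZx := by
    apply poly_of_coeff K
    intro n hn
    rw [map_sub, coeff_xderiv, rem, coeff_mask, hW, coeff_mk]
    by_cases h8 : ∀ M ∈ q :: L, ¬ M ∣ n
    · rw [if_pos h8, if_pos ⟨hn, h8⟩]
      have h10 := hc n hn fun M hM' => h8 M (List.mem_cons_of_mem _ hM')
      obtain ⟨w, hw⟩ := hkey n hn h8
      rw [hw, map_zsmul, smul_eq_mul] at h10
      rw [hw, Int.mul_ediv_cancel_left _ hq0]
      have : (q : ℤ) * (coeff n R - n * w) = 0 := by linear_combination h10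
      exact (mul_eq_zero.1 this).resolve_left hq0
    · rw [if_neg h8, if_neg (fun h' => h8 h'.2), mul_zero, sub_zero]
  have h10 : X * d⁄dX ℤ W ∈ groupD ⊓ A := by
    refine ⟨⟨W, hWalg, rfl⟩, ?_⟩
    obtain ⟨p, hp⟩ := h9
    have : X * d⁄dX ℤ W = rem (q :: L) R - (p : ℤ⟦X⟧) := by rw [← hp]; ring
    rw [this]
    exact A.sub_mem h2 (hA.poly p)
  have h11 : R = X * d⁄dX ℤ W + (rem (q :: L) R - X * d⁄dX ℤ W) + (R - rem (q :: L) R) := by ring
  rw [h11]
  exact AddSubgroup.add_mem_sup (AddSubgroup.add_mem_sup h10 h9) h3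

theorem divisible {A : AddSubgroup ℤ⟦X⟧} (hA : Good A) {q : ℕ} (hq : q.Prime) {R : ℤ⟦X⟧}
    (hR : R ∈ groupF ⊓ A) : ∃ S ∈ groupF ⊓ A, R - (q : ℤ) • S ∈ rel A := by
  have : Fact q.Prime := ⟨hq⟩
  have hq0 : (q : ℤ) ≠ 0 := by exact_mod_cast hq.ne_zero
  -- the inverses
  have hinv : ∀ r : ℕ, ∃ c : ℤ, (r % q ≠ 0 → (q : ℤ) ∣ 1 - c * r) ∧ (r % q = 0 → c = 0) := by
    intro r
    by_cases hr : r % q = 0
    · exact ⟨0, fun h => absurd hr h, fun _ => rfl⟩
    · have hcop : IsCoprime (r : ℤ) (q : ℤ) := by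
        rw [Nat.isCoprime_iff_coprime]
        exact ((Nat.Prime.coprime_iff_not_dvd hq).2 fun h => hr (Nat.mod_eq_zero_of_dvd h)).symm
      obtain ⟨a, b, hab⟩ := hcop
      exact ⟨a, fun _ => ⟨b, by linear_combination -hab⟩, fun h => absurd h hr⟩
  choose c hc1 hc2 using hinv
  set U : ℤ⟦X⟧ := ∑ r ∈ Finset.range q, c r • mask (fun n => n % q = r % q) R with hU
  have hUc : ∀ n, coeff n U = c (n % q) * coeff n R := by
    intro n
    rw [hU, map_sum, Finset.sum_eq_single (n % q)]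
    · rw [map_zsmul, coeff_mask, if_pos (Nat.mod_mod _ _).symm, smul_eq_mul]
    · intro r hr hrn
      rw [map_zsmul, coeff_mask, if_neg, smul_zero]
      rw [Nat.mod_eq_of_lt (Finset.mem_range.1 hr)]
      exact fun h => hrn h.symm
    · intro h
      exact absurd (Finset.mem_range.2 (Nat.mod_lt _ hq.pos)) h
  have hUalg : IsAlg U := IsAlg.sum _ _ fun r _ => (hR.1.1.mask_class hq.pos r).smul _
  have hUA : U ∈ A := A.sum_mem fun r _ => A.zsmul_mem (hA.mask _ hR.2 hR.1.1 _ _ hq.pos) _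
  have hV := sec_mem_P hR.1.1 hq.two_le
  have hVA : mask (fun n => n % q = 0 % q) R ∈ A := hA.mask _ hR.2 hR.1.1 _ _ hq.pos
  have hdvd : ∀ n, (q : ℤ) ∣ coeff n (R - X * d⁄dX ℤ U - mask (fun n => n % q = 0 % q) R) := by
    intro n
    rw [map_sub, map_sub, coeff_xderiv, coeff_mask, hUc, Nat.zero_mod]
    by_cases hn : n % q = 0
    · rw [if_pos hn, hn, hc2 0 (Nat.zero_mod q)]
      simp
    · rw [if_neg hn, sub_zero]
      have h1 := hc1 (n % q) (by rw [Nat.mod_mod]; exact hn)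
      have h2 : (q : ℤ) ∣ (n : ℤ) - ((n % q : ℕ) : ℤ) := by
        rw [Int.natCast_mod]
        exact Int.dvd_self_sub_emod
      have h3 : coeff n R - n * (c (n % q) * coeff n R) =
          (1 - c (n % q) * ((n % q : ℕ) : ℤ)) * coeff n R -
            (n - ((n % q : ℕ) : ℤ)) * (c (n % q) * coeff n R) := by ring
      rw [h3]
      exact dvd_sub (dvd_mul_of_dvd_left h1 _) (dvd_mul_of_dvd_left h2 _)
  choose s hs using hdvd
  set S : ℤ⟦X⟧ := PowerSeries.mk s with hS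
  have hqS : (q : ℤ) • S = R - X * d⁄dX ℤ U - mask (fun n => n % q = 0 % q) R := by
    ext n
    rw [map_zsmul, hS, coeff_mk, smul_eq_mul, ← hs n]
  have hXU : X * d⁄dX ℤ U ∈ A := hA.xderiv _ hUA
  have hSA : S ∈ A := by
    apply hA.sat _ _ hq0
    rw [hqS]
    exact A.sub_mem (A.sub_mem hR.2 hXU) hVA
  have hSalg : IsAlg S := by
    apply IsAlg.of_smul hq0
    rw [hqS, sub_eq_add_neg, sub_eq_add_neg]
    exact (hR.1.1.add hUalg.xderiv.neg).add (hR.1.1.mask_class hq.pos 0).neg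
  refine ⟨S, ⟨⟨hSalg, ?_⟩, hSA⟩, ?_⟩
  · obtain ⟨N, hN⟩ := hR.1.2
    refine ⟨max N (q + 1), fun p hp hpN => ?_⟩
    have h1 := hN p hp (le_trans (le_max_left _ _) hpN)
    have h2 : q + 1 ≤ p := le_trans (le_max_right _ _) hpN
    have h3 : (p : ℤ) ∣ q * coeff p S := by
      have h4 := congrArg (coeff p) hqS
      rw [map_zsmul, smul_eq_mul] at h4
      rw [h4, map_sub, map_sub, coeff_xderiv, coeff_mask, Nat.zero_mod, if_neg, sub_zero]
      · exact dvd_sub h1 (dvd_mul_right _ _)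
      · intro h5
        rcases (Nat.dvd_prime hp).1 (Nat.dvd_of_mod_eq_zero h5) with h6 | h6
        · exact hq.one_lt.ne' h6
        · omega
    have hpp : Prime (p : ℤ) := Nat.prime_iff_prime_int.1 hp
    rcases hpp.dvd_or_dvd h3 with h4 | h4
    · have h5 : p ∣ q := by exact_mod_cast h4
      have := Nat.le_of_dvd hq.pos h5
      omega
    · exact h4
  · have : R - (q : ℤ) • S = X * d⁄dX ℤ U + 0 + mask (fun n => n % q = 0 % q) R := by
      rw [hqS]; ring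
    rw [this]
    exact AddSubgroup.add_mem_sup (AddSubgroup.add_mem_sup ⟨⟨U, hUalg, rfl⟩, hXU⟩
      (AddSubgroup.zero_mem _)) ⟨hV, hVA⟩

end Pool.Agent.Q19.Fermat
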