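import Mathlib
import Pool.Agent.Q19.Fermat.Main

set_option autoImplicit false

namespace Pool.Agent.Q19.Fermat

open PowerSeries

/-- the series `∑ (a ^ n - a) x ^ n` -/
noncomputable def fer (a : ℕ) : ℤ⟦X⟧ := PowerSeries.mk fun n => (a : ℤ) ^ n - a

theorem fer_eq (a : ℕ) : fer a = PowerSeries.mk (fun n => (a : ℤ) ^ n) -
    (a : ℤ) • PowerSeries.mk (fun n => ((1 : ℕ) : ℤ) ^ n) := by
  ext n
  rw [map_sub, map_zsmul, fer, coeff_mk, coeff_mk, coeff_mk]
  simp

theorem isRat_geom (a : ℕ) : IsRat (PowerSeries.mk (fun n => (a : ℤ) ^ n)) := by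
  refine ⟨1, 1 - Polynomial.C (a : ℚ) * Polynomial.X, ?_, ?_⟩
  · intro h
    have := congrArg (fun p => Polynomial.coeff p 0) h
    simp at this
  · have h1 : (PowerSeries.mk (fun n => (a : ℤ) ^ n)).map (Int.castRingHom ℚ) =
        PowerSeries.mk (fun n => (a : ℚ) ^ n) := by
      ext n; simp
    rw [h1]
    ext n
    rw [Polynomial.coe_sub, Polynomial.coe_mul, Polynomial.coe_C, Polynomial.coe_X,
      Polynomial.coe_one, sub_mul, one_mul, map_sub, mul_assoc, coeff_C_mul]
    cases n with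
    | zero => simp
    | succ n =>
      rw [coeff_succ_X_mul, coeff_mk, coeff_mk, coeff_one, if_neg (by omega)]
      ring

theorem fer_mem_F (a : ℕ) : fer a ∈ groupF := by
  constructor
  · rw [fer_eq, sub_eq_add_neg]
    exact (isRat_geom a).isAlg.add (((isRat_geom 1).isAlg.smul _).neg)
  · refine ⟨0, fun p hp _ => ?_⟩
    rw [fer, coeff_mk]
    have : Fact p.Prime := ⟨hp⟩
    rw [← ZMod.intCast_zmod_eq_zero_iff_dvd]
    push_cast
    rw [ZMod.pow_card, sub_self]

theorem fer_mem {A : AddSubgroup ℤ⟦X⟧} (hA : Good A) (a : ℕ) : fer a ∈ A := by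
  rw [fer_eq]
  exact A.sub_mem (hA.geom a) (A.zsmul_mem (hA.geom 1) _)

/-- the independence of the geometric sequences along an arithmetic progression -/
theorem indep (c : ℕ →₀ ℤ) (Q : ℕ) (hQ : 0 < Q)
    (h : ∀ k : ℕ, c.sum (fun a x => x * (((a + 2 : ℕ) : ℤ) ^ (1 + k * Q) - ((a + 2 : ℕ) : ℤ))) = 0) :
    c = 0 := by
  classical
  -- distinct characters of `ℕ`
  let χ : ℕ → (Multiplicative ℕ →* ℚ) := fun b => powersHom ℚ (b : ℚ)
  have hχ : Function.Injective χ := by
    intro b b' hbb
    have := congrArg (fun f => f (Multiplicative.ofAdd 1)) hbb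
    simpa [χ] using this
  have hli := linearIndependent_monoidHom (Multiplicative ℕ) ℚ
  have hli2 := hli.comp χ hχ
  -- the exponents
  let e : ℕ → ℕ := fun a => (a + 2) ^ Q
  have he : Function.Injective e := by
    intro a b hab
    have := Nat.pow_left_injective hQ.ne' hab
    omega
  have he1 : ∀ a, e a ≠ 1 := by
    intro a ha
    have : 1 < (a + 2) ^ Q := Nat.one_lt_pow hQ.ne' (by omega)
    simp only [e] at ha
    omega
  rw [linearIndependent_iff'] at hli2
  set s : Finset ℕ := insert 1 (c.support.image e) with hs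
  let tot : ℚ := ∑ a ∈ c.support, ((c a : ℤ) : ℚ) * ((a + 2 : ℕ) : ℚ)
  let g : ℕ → ℚ := fun b => if b = 1 then -tot else
    ∑ a ∈ c.support, if e a = b then ((c a : ℤ) : ℚ) * ((a + 2 : ℕ) : ℚ) else 0
  have hsum : ∑ b ∈ s, g b • (fun b => ((χ b : Multiplicative ℕ →* ℚ) : Multiplicative ℕ → ℚ)) b = 0 := by
    funext k
    rw [Finset.sum_apply, Pi.zero_apply]
    have h1 : (1 : ℕ) ∉ c.support.image e := by
      intro h1
      obtain ⟨a, _, ha⟩ := Finset.mem_image.1 h1
      exact he1 a ha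
    rw [hs, Finset.sum_insert h1, Finset.sum_image (fun a _ b _ hab => he hab)]
    have h2 : ∀ b : ℕ, (χ b) k = (b : ℚ) ^ (Multiplicative.toAdd k) := by
      intro b
      simp [χ, powersHom_apply]
    simp only [Pi.smul_apply, h2, smul_eq_mul]
    have h3 : g 1 = -tot := by simp [g]
    have h4 : ∀ a ∈ c.support, g (e a) = ((c a : ℤ) : ℚ) * ((a + 2 : ℕ) : ℚ) := by
      intro a ha
      simp only [g]
      rw [if_neg (he1 a), Finset.sum_eq_single a]
      · simp
      · intro b _ hb
        rw [if_neg (fun h => hb (he h))]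
      · intro h; exact absurd ha h
    rw [h3, Finset.sum_congr rfl (fun a ha => by rw [h4 a ha])]
    have h5 := h (Multiplicative.toAdd k)
    rw [Finsupp.sum] at h5
    have h6 := congrArg (fun z : ℤ => (z : ℚ)) h5
    simp only [Int.cast_sum, Int.cast_mul, Int.cast_sub, Int.cast_pow, Int.cast_natCast,
      Int.cast_zero, mul_sub] at h6
    rw [Finset.sum_sub_distrib] at h6
    simp only [tot]
    push_cast at h6 ⊢
    rw [one_pow, mul_one]
    have h7 : ∑ x ∈ c.support, (c x : ℚ) * ((x : ℚ) + 2) * (((e x : ℕ) : ℚ)) ^ (Multiplicative.toAdd k) =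
        ∑ x ∈ c.support, (c x : ℚ) * ((x : ℚ) + 2) ^ (1 + Multiplicative.toAdd k * Q) := by
      refine Finset.sum_congr rfl fun x _ => ?_
      simp only [e]
      push_cast
      rw [pow_add, pow_one, mul_comm (Multiplicative.toAdd k) Q, pow_mul]
      ring
    rw [h7]
    linear_combination h6
  have hall := hli2 s g hsum
  ext a
  by_contra hca
  have hmem : a ∈ c.support := Finsupp.mem_support_iff.2 hca
  have h8 := hall (e a) (Finset.mem_insert_of_mem (Finset.mem_image_of_mem e hmem))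
  simp only [g] at h8
  rw [if_neg (he1 a), Finset.sum_eq_single a] at h8
  · rw [if_pos rfl] at h8
    rcases mul_eq_zero.1 h8 with h9 | h9
    · exact hca (by exact_mod_cast h9)
    · have : (a + 2 : ℕ) = 0 := by exact_mod_cast h9
      omega
  · intro b _ hb
    rw [if_neg (fun h => hb (he h))]
  · intro h; exact absurd hmem h

/-- a combination of the series `fer` in `rel A` is trivial -/
theorem fer_indep {A : AddSubgroup ℤ⟦X⟧} (c : ℕ →₀ ℤ)
    (h : c.sum (fun a x => x • fer (a + 2)) ∈ rel A) : c = 0 := by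
  obtain ⟨U, L, K, hU, hL, hc⟩ := rel_coeff h
  set Q : ℕ := L.prod with hQ
  have hQ0 : 0 < Q := by
    apply Nat.pos_of_ne_zero
    intro h0
    rw [hQ, List.prod_eq_zero_iff] at h0
    have := hL 0 h0
    omega
  apply indep c Q hQ0
  intro k
  set r : ℕ := 1 + k * Q with hr
  have hrL : ∀ M ∈ L, Nat.Coprime M r := by
    intro M hM
    have hd : M ∣ Q := List.dvd_prod hM
    have : Nat.Coprime r Q := by
      rw [hr]
      exact (Nat.coprime_add_mul_right_left 1 Q k).2 (Nat.coprime_one_left Q)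
    exact (Nat.Coprime.coprime_dvd_right hd this).symm
  -- all large primes divide the number
  set S : ℤ := c.sum (fun a x => x * (((a + 2 : ℕ) : ℤ) ^ r - ((a + 2 : ℕ) : ℤ))) with hS
  have hdiv : ∀ p : ℕ, p.Prime → K + Q + 1 ≤ p → (p : ℤ) ∣ S := by
    intro p hp hpK
    have hfact : Fact p.Prime := ⟨hp⟩
    have hr1 : 1 ≤ r := by omega
    have hn : K ≤ p * r := by nlinarith
    have hM : ∀ M ∈ L, ¬ M ∣ p * r := by
      intro M hM hd
      have h1 : M ∣ p := (hrL M hM).dvd_of_dvd_mul_right hd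
      have h2 : M ≤ Q := Nat.le_of_dvd hQ0 (List.dvd_prod hM)
      rcases (Nat.dvd_prime hp).1 h1 with h3 | h3
      · have := hL M hM; omega
      · omega
    have h1 := hc (p * r) hn hM
    have h2 : (p : ℤ) ∣ coeff (p * r) (c.sum (fun a x => x • fer (a + 2))) := by
      rw [h1]
      push_cast
      exact ⟨r * coeff (p * r) U, by ring⟩
    rw [← ZMod.intCast_zmod_eq_zero_iff_dvd] at h2 ⊢
    rw [← h2, hS, Finsupp.sum, Finsupp.sum, map_sum]
    push_cast
    refine Finset.sum_congr rfl fun a _ => ?_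
    rw [map_zsmul, fer, coeff_mk, smul_eq_mul]
    push_cast
    rw [pow_mul, ZMod.pow_card]
  obtain ⟨p, hp1, hp2⟩ := Nat.exists_infinite_primes (K + Q + 1 + S.natAbs + 1)
  have h3 := hdiv p hp2 (by omega)
  by_contra hS0
  have h4 := Int.natAbs_dvd_natAbs.2 h3
  rw [Int.natAbs_natCast] at h4
  have h5 := Nat.le_of_dvd (Int.natAbs_pos.2 hS0) h4
  omega

theorem main {A : AddSubgroup ℤ⟦X⟧} (hA : Good A) :
    Nonempty ((↥(groupF ⊓ A) ⧸ (rel A).addSubgroupOf (groupF ⊓ A)) ≃+ (ℕ →₀ ℚ)) := by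
  classical
  have hcount : Countable ↥(groupF ⊓ A) := by
    have h1 : {x : ℚ⟦X⟧ | IsAlgebraic (Polynomial ℚ) x}.Countable := by
      have hinj : Function.Injective (algebraMap (Polynomial ℚ) ℚ⟦X⟧) := by
        intro p q h
        ext n
        have := congrArg (coeff n) h
        simpa [algebraMap_apply'] using this
      have : Module.IsTorsionFree (Polynomial ℚ) ℚ⟦X⟧ := by
        rw [Module.isTorsionFree_iff_algebraMap_injective]
        exact hinj
      have : Countable (Polynomial ℚ) := by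
        rw [← Cardinal.mk_le_aleph0_iff]
        exact (Polynomial.cardinalMk_le_max).trans (by simp)
      exact Algebraic.countable _ _
    have h2 : Countable {x : ℚ⟦X⟧ | IsAlgebraic (Polynomial ℚ) x} := h1
    let φ : ↥(groupF ⊓ A) → {x : ℚ⟦X⟧ | IsAlgebraic (Polynomial ℚ) x} := fun R =>
      ⟨(R : ℤ⟦X⟧).map (Int.castRingHom ℚ), R.2.1.1⟩
    have hφ : Function.Injective φ := by
      intro R S h
      have h3 := congrArg Subtype.val h
      exact Subtype.ext (PowerSeries.map_injective _ Int.cast_injective h3)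
    exact hφ.countable
  have hmem : ∀ R : ↥(groupF ⊓ A), ((QuotientAddGroup.mk R :
      ↥(groupF ⊓ A) ⧸ (rel A).addSubgroupOf (groupF ⊓ A)) = 0) ↔ (R : ℤ⟦X⟧) ∈ rel A := by
    intro R
    rw [QuotientAddGroup.eq_zero_iff, AddSubgroup.mem_addSubgroupOf]
  have hcq : Countable (↥(groupF ⊓ A) ⧸ (rel A).addSubgroupOf (groupF ⊓ A)) :=
    (QuotientAddGroup.mk_surjective).countable
  refine equiv_rat ?_ ?_ (fun k => QuotientAddGroup.mk
    (⟨fer (k + 2), fer_mem_F _, fer_mem hA _⟩ : ↥(groupF ⊓ A))) ?_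
  · intro p hp m hm
    obtain ⟨R, rfl⟩ := QuotientAddGroup.mk_surjective m
    rw [← QuotientAddGroup.mk_nsmul, hmem] at hm
    rw [hmem]
    apply torsion_free hA hp R.2
    have : ((p • R : ↥(groupF ⊓ A)) : ℤ⟦X⟧) = (p : ℤ) • (R : ℤ⟦X⟧) := by
      rw [natCast_zsmul]; rfl
    rwa [this] at hm
  · intro p hp m
    obtain ⟨R, rfl⟩ := QuotientAddGroup.mk_surjective m
    obtain ⟨S, hS, hRS⟩ := divisible hA hp R.2
    refine ⟨QuotientAddGroup.mk ⟨S, hS⟩, ?_⟩
    rw [← QuotientAddGroup.mk_nsmul, ← sub_eq_zero, ← QuotientAddGroup.mk_sub, hmem]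
    have : ((p • (⟨S, hS⟩ : ↥(groupF ⊓ A)) - R : ↥(groupF ⊓ A)) : ℤ⟦X⟧) =
        -((R : ℤ⟦X⟧) - (p : ℤ) • S) := by
      rw [natCast_zsmul]
      push_cast
      ring
    rw [this]
    exact (rel A).neg_mem hRS
  · rw [linearIndependent_iff]
    intro l hl
    apply fer_indep (A := A) l
    rw [Finsupp.linearCombination_apply] at hl
    have h1 : (QuotientAddGroup.mk (l.sum fun a x => x • (⟨fer (a + 2), fer_mem_F _,
        fer_mem hA _⟩ : ↥(groupF ⊓ A))) :
        ↥(groupF ⊓ A) ⧸ (rel A).addSubgroupOf (groupF ⊓ A)) = 0 := by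
      rw [← hl, Finsupp.sum, Finsupp.sum]
      change (QuotientAddGroup.mk' _) _ = _
      rw [map_sum]
      rfl
    rw [hmem] at h1
    have h2 : ((l.sum fun a x => x • (⟨fer (a + 2), fer_mem_F _,
        fer_mem hA _⟩ : ↥(groupF ⊓ A)) : ↥(groupF ⊓ A)) : ℤ⟦X⟧) =
        l.sum fun a x => x • fer (a + 2) := by
      rw [Finsupp.sum, Finsupp.sum, AddSubgroup.val_finsetSum]
      rfl
    rwa [h2] at h1

theorem good_top : Good ⊤ :=
  ⟨fun _ _ _ _ _ _ => trivial, fun _ _ _ _ => trivial, fun _ => trivial, fun _ => trivial,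
    fun _ _ => trivial⟩

theorem good_rat : Good groupRat := by
  have hpoly : ∀ p : Polynomial ℤ, IsRat (p : ℤ⟦X⟧) := by
    intro p
    refine ⟨p.map (Int.castRingHom ℚ), 1, one_ne_zero, ?_⟩
    ext n; simp
  refine ⟨?_, ?_, hpoly, isRat_geom, ?_⟩
  · rintro R ⟨p, q, hq, h⟩ _ N r hN
    -- a multiple of `q` in `ℚ[x ^ N]`
    have hint : Algebra.IsIntegral (Polynomial.expand ℚ N).range (Polynomial ℚ) :=
      ⟨integral_over_expand hN⟩
    obtain ⟨⟨_, ⟨t, rfl⟩⟩, ht0, htd⟩ := (hint.isAlgebraic.isAlgebraic q).exists_nonzero_dvd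
      (mem_nonZeroDivisors_of_ne_zero hq)
    change q ∣ Polynomial.expand ℚ N t at htd
    obtain ⟨w, hw⟩ := htd
    have ht1 : Polynomial.expand ℚ N t ≠ 0 := by
      intro h0
      apply ht0
      exact Subtype.ext h0
    have h1 : ((Polynomial.expand ℚ N t : Polynomial ℚ) : ℚ⟦X⟧) * R.map (Int.castRingHom ℚ) =
        ((w * p : Polynomial ℚ) : ℚ⟦X⟧) := by
      rw [hw, Polynomial.coe_mul, Polynomial.coe_mul, ← h]
      ring
    refine ⟨∑ i ∈ Finset.range ((w * p).natDegree + 1),
      if i % N = r % N then Polynomial.monomial i ((w * p).coeff i) else 0,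
      Polynomial.expand ℚ N t, ht1, ?_⟩
    ext n
    rw [mask_map, coeff_mul]
    have h2 : coeff n (((Polynomial.expand ℚ N t : Polynomial ℚ) : ℚ⟦X⟧) *
        R.map (Int.castRingHom ℚ)) = (w * p).coeff n := by rw [h1, Polynomial.coeff_coe]
    rw [coeff_mul] at h2
    have h3 : ∀ x ∈ Finset.HasAntidiagonal.antidiagonal n,
        coeff x.1 ((Polynomial.expand ℚ N t : Polynomial ℚ) : ℚ⟦X⟧) *
          coeff x.2 (mask (fun n => n % N = r % N) (R.map (Int.castRingHom ℚ))) =
        if n % N = r % N then coeff x.1 ((Polynomial.expand ℚ N t : Polynomial ℚ) : ℚ⟦X⟧) *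
          coeff x.2 (R.map (Int.castRingHom ℚ)) else 0 := by
      intro x hx
      rw [Finset.HasAntidiagonal.mem_antidiagonal] at hx
      rw [coeff_mask, Polynomial.coeff_coe, Polynomial.coeff_expand hN]
      by_cases hx1 : N ∣ x.1
      · have h4 : x.2 % N = n % N := by
          rw [← hx, Nat.add_mod, Nat.mod_eq_zero_of_dvd hx1, zero_add, Nat.mod_mod]
        rw [if_pos hx1, h4]
        split_ifs <;> simp
      · rw [if_neg hx1]
        simp
    rw [Finset.sum_congr rfl h3, Polynomial.coeff_coe, Polynomial.finsetSum_coeff]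
    by_cases hn : n % N = r % N
    · simp only [hn, if_true]
      rw [h2]
      by_cases hd : n ≤ (w * p).natDegree
      · rw [Finset.sum_eq_single n]
        · rw [if_pos hn, Polynomial.coeff_monomial, if_pos rfl]
        · intro i _ hi
          split_ifs
          · rw [Polynomial.coeff_monomial, if_neg hi]
          · simp
        · intro h5
          exact absurd (Finset.mem_range.2 (by omega)) h5
      · rw [Polynomial.coeff_eq_zero_of_natDegree_lt (by omega), Finset.sum_eq_zero]
        intro i hi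
        split_ifs
        · rw [Polynomial.coeff_monomial, if_neg]
          intro h6
          have := Finset.mem_range.1 hi
          omega
        · simp
    · simp only [hn, if_false, Finset.sum_const_zero]
      symm
      apply Finset.sum_eq_zero
      intro i _
      by_cases hi : i = n
      · rw [hi, if_neg hn]; simp
      · split_ifs
        · rw [Polynomial.coeff_monomial, if_neg hi]
        · simp
  · rintro k R hk ⟨p, q, hq, h⟩
    refine ⟨p, Polynomial.C (k : ℚ) * q, mul_ne_zero (by simpa using hk) hq, ?_⟩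
    rw [← h, Polynomial.coe_mul, Polynomial.coe_C]
    have h1 : (k • R).map (Int.castRingHom ℚ) = C (k : ℚ) * R.map (Int.castRingHom ℚ) := by
      ext n; simp
    rw [h1]
    ring
  · rintro R ⟨p, q, hq, h⟩
    refine ⟨Polynomial.X * (q * Polynomial.derivative p - Polynomial.derivative q * p), q * q,
      mul_ne_zero hq hq, ?_⟩
    have h1 : (X * d⁄dX ℤ R).map (Int.castRingHom ℚ) = X * d⁄dX ℚ (R.map (Int.castRingHom ℚ)) := by
      rw [map_mul, map_X]
      congr 1
      ext n; simp [coeff_derivative]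
    rw [h1]
    have hD : ∀ p : Polynomial ℚ, d⁄dX ℚ (p : ℚ⟦X⟧) = (Polynomial.derivative p : Polynomial ℚ) := by
      intro p
      ext k
      simp [coeff_derivative, Polynomial.coeff_derivative]
    have h2 := congrArg (d⁄dX ℚ) h
    rw [Derivation.leibniz, hD, hD, smul_eq_mul, smul_eq_mul] at h2
    simp only [Polynomial.coe_mul, Polynomial.coe_sub, Polynomial.coe_X]
    rw [← h2, ← h]
    ring

end Pool.Agent.Q19.Fermat
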